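import Pool.Agent.Helper3.TP.St
import Pool.Agent.Helper80.TL.M_FAR1
import Pool.Agent.Helper80.TL.M_FAM2

/-! Project TP (MP_86d903), module GREEDY (helper26). -/

set_option autoImplicit false

open Finset
open Helper80.SR (Exp Closed Cl Sm)
open Helper3.TL Helper3.TP Helper80.TL

namespace Helper26.TP

section
variable {ι V : Type} [DecidableEq ι] [Fintype ι] [DecidableEq V] [Fintype V]
  {vs : ι → Finset V} {A : Finset V}

private theorem disj_shift {l : ℕ} {X Y : Finset V} (hX : Disjoint X A) : ∀ {l' : ℕ},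
    Disjoint X (near vs A (l + l') Y) → Disjoint (near vs A l X) (near vs A l' Y) := by
  induction l with
  | zero =>
    intro l' h
    rw [near_zero]
    rwa [Nat.zero_add] at h
  | succ l ih =>
    intro l' h
    have h1 : Disjoint (near vs A l X) (near vs A (l' + 1) Y) :=
      ih (by rwa [show l + (l' + 1) = l + 1 + l' by omega])
    rw [near_succ, Finset.disjoint_left]
    intro v hv hv'
    rcases mem_nb.mp hv with h2 | ⟨⟨c, ⟨x, hx, hxX⟩, hvc⟩, _⟩
    · exact Finset.disjoint_left.mp h1 h2 (near_mono_right (Nat.le_succ l') Y hv')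
    · refine Finset.disjoint_left.mp h1 hxX ?_
      rw [near_succ]
      exact mem_nb.mpr (Or.inr ⟨⟨c, ⟨v, hvc, hv'⟩, hx⟩,
        Finset.disjoint_left.mp (near_disj l hX) hxX⟩)

end

theorem hGreedy : PGreedy := by
  intro ι V _ _ _ _ vs q D κ f A Q hE hκ hQA hQ
  obtain ⟨W, hW⟩ : ∃ W : V → Finset V, ∀ i, W i = Cl vs q (insert i A) \ A :=
    ⟨_, fun _ => rfl⟩
  have hWA : ∀ i, Disjoint (W i) A := fun i => by
    rw [hW]
    exact sdiff_disjoint
  have hWc : ∀ i, (W i).card ≤ 3 := fun i => by
    rw [hW]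
    exact card_class_le hClo1 hE i hκ
  have hmem : ∀ i j, i ∉ A → j ∈ W i → i ∈ W j := by
    intro i j hi hj
    rw [hW] at hj ⊢
    obtain ⟨h1, h2⟩ := mem_sdiff.mp hj
    have h3 := (hFam2 ι V vs q D κ A hE).1 A i j (subset_refl A) hE.closed' (by simp) h1 h2
    rw [h3]
    exact mem_sdiff.mpr ⟨mem_cl_insert i A, hi⟩
  have key : ∀ m, m ≤ f → ∃ i : Fin f → V, (∀ k : Fin f, i k ∈ Q k) ∧
      ∀ k l : Fin f, (k : ℕ) < m → (l : ℕ) < m → k ≠ l →
        Disjoint (near vs A 10 (W (i k))) (near vs A 10 (W (i l))) := by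
    intro m
    induction m with
    | zero =>
      intro _
      have hne : ∀ k, ∃ j, j ∈ Q k := fun k =>
        card_pos.mp (lt_of_le_of_lt (Nat.zero_le _) (hQ k))
      choose i hi using hne
      exact ⟨i, hi, fun k l hk => absurd hk (Nat.not_lt_zero _)⟩
    | succ m ih =>
      intro hm
      obtain ⟨i, hi, hd⟩ := ih (by omega)
      obtain ⟨X, hX⟩ : ∃ X : Finset V,
        X = (univ.filter (fun k : Fin f => (k : ℕ) < m)).biUnion (fun k => W (i k)) := ⟨_, rfl⟩
      have hXA : Disjoint X A := by
        rw [hX, disjoint_biUnion_left]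
        exact fun k _ => hWA _
      have hXc : X.card ≤ f * 3 := by
        rw [hX]
        refine (card_biUnion_le_card_mul _ _ 3 (fun k _ => hWc _)).trans
          (Nat.mul_le_mul_right 3 ?_)
        refine (card_filter_le _ _).trans ?_
        simp
      have hZc : (near vs A 20 X).card ≤ X.card * (2 * D + 1) ^ 20 :=
        (hFar1 ι V vs q D κ A X 20 hE hXA).1
      have hBc : ((near vs A 20 X).biUnion W).card ≤ (near vs A 20 X).card * 3 :=
        card_biUnion_le_card_mul _ _ 3 (fun z _ => hWc z)
      have hlt : ((near vs A 20 X).biUnion W).card < (Q ⟨m, hm⟩).card := by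
        refine lt_of_le_of_lt ?_ (hQ ⟨m, hm⟩)
        refine hBc.trans ((Nat.mul_le_mul_right 3 hZc).trans ?_)
        calc X.card * (2 * D + 1) ^ 20 * 3 ≤ (f * 3) * (2 * D + 1) ^ 20 * 3 :=
              Nat.mul_le_mul_right 3 (Nat.mul_le_mul_right _ hXc)
          _ = 9 * (f * (2 * D + 1) ^ 20) := by ring
      obtain ⟨j, hjQ, hjB⟩ := exists_mem_notMem_of_card_lt_card hlt
      have hjd : Disjoint (W j) (near vs A 20 X) := by
        rw [Finset.disjoint_left]
        intro z hz hzZ
        exact hjB (mem_biUnion.mpr ⟨z, hzZ, hmem j z (hQA _ j hjQ) hz⟩)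
      have hnew : ∀ k : Fin f, (k : ℕ) < m →
          Disjoint (near vs A 10 (W j)) (near vs A 10 (W (i k))) := by
        intro k hk
        refine disj_shift (hWA j) (hjd.mono_right ?_)
        refine near_mono_left _ ?_
        rw [hX]
        exact subset_biUnion_of_mem (fun k => W (i k)) (mem_filter.mpr ⟨mem_univ _, hk⟩)
      have hup : ∀ k : Fin f, (k : ℕ) ≠ m → Function.update i ⟨m, hm⟩ j k = i k := by
        intro k hk
        exact Function.update_of_ne (fun h => hk (by rw [h])) _ _
      have hum : ∀ k : Fin f, (k : ℕ) = m → Function.update i ⟨m, hm⟩ j k = j := by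
        intro k hk
        have h1 : k = ⟨m, hm⟩ := Fin.ext hk
        rw [h1]
        exact Function.update_self _ _ _
      refine ⟨Function.update i ⟨m, hm⟩ j, ?_, ?_⟩
      · intro k
        by_cases hk : (k : ℕ) = m
        · rw [hum k hk]
          have h1 : k = ⟨m, hm⟩ := Fin.ext hk
          rw [h1]
          exact hjQ
        · rw [hup k hk]
          exact hi k
      · intro k l hk hl hkl
        by_cases hk' : (k : ℕ) = m
        · have hl' : (l : ℕ) ≠ m := fun h => hkl (Fin.ext (hk'.trans h.symm))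
          rw [hum k hk', hup l hl']
          exact hnew l (by omega)
        · rw [hup k hk']
          by_cases hl' : (l : ℕ) = m
          · rw [hum l hl']
            exact (hnew k (by omega)).symm
          · rw [hup l hl']
            exact hd k l (by omega) (by omega) hkl
  obtain ⟨i, hi, hd⟩ := key f (le_refl f)
  refine ⟨i, hi, fun k l hkl => ?_⟩
  have h1 := hd k l k.2 l.2 hkl
  rwa [hW, hW] at h1

end Helper26.TP
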