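import Pool.Agent.Helper49.TP.StM

/-!
Project TP (MP_953b28_co): the L1 inequality for bipartite graphs, second half.
-/

set_option autoImplicit false

namespace Pool.Agent.Helper26.TP

open Finset Pool.Agent.Helper49.TP Pool.Agent.Helper93.IA Pool.Agent.Helper38.IA

theorem avg_le {α : Type} (N : Finset α) (hN : 0 < (N.card : ℝ)) (h : α → ℝ) (x : ℝ) :
    |x - (∑ a' ∈ N, h a') / N.card| ≤ 1 / N.card * ∑ a' ∈ N, |x - h a'| := by
  have h1 : x - (∑ a' ∈ N, h a') / N.card = 1 / N.card * ∑ a' ∈ N, (x - h a') := by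
    rw [Finset.sum_sub_distrib, Finset.sum_const, nsmul_eq_mul]
    field_simp
  rw [h1, abs_mul, abs_of_nonneg (by positivity : (0 : ℝ) ≤ 1 / N.card)]
  exact mul_le_mul_of_nonneg_left (Finset.abs_sum_le_sum_abs _ _) (by positivity)

theorem Q4_nonneg {α β : Type} [Fintype α] [Fintype β] [DecidableEq α] [DecidableEq β]
    (A : Finset (α × β)) (g : α → β → ℝ) : 0 ≤ Q4 A g := by
  unfold Q4
  refine Finset.sum_nonneg fun a _ => Finset.sum_nonneg fun a' _ =>
    Finset.sum_nonneg fun b _ => Finset.sum_nonneg fun b' _ => ?_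
  split_ifs
  · exact abs_nonneg _
  · exact le_refl _

theorem hP2b : StP2b := by
  intro hP2a α β _ _ _ _ n A g hn hα hβ h1 h2
  obtain ⟨p, hp⟩ := hP2a α β n A g hn hα hβ h1 h2
  have hn' : (0 : ℝ) < n := by exact_mod_cast hn
  let N : β → Finset α := fun b => univ.filter (fun a => (a, b) ∈ A)
  have hN : ∀ b, 3 / 4 * (n : ℝ) ≤ (N b).card := by
    intro b
    have h3 : (N b).card + m2 A univ b = n := by
      rw [← hα, ← Finset.card_univ]
      exact Finset.card_filter_add_card_filter_not (fun a => (a, b) ∈ A)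
    have h4 : ((N b).card : ℝ) + m2 A univ b = n := by exact_mod_cast h3
    have h5 := h2 b
    linarith
  let q : β → ℝ := fun b => -((∑ a' ∈ N b, (g a' b - p a')) / (N b).card)
  refine ⟨p, q, ?_⟩
  have key : ∀ a b, (if (a, b) ∈ A then |g a b - (p a - q b)| else 0) ≤
      4 / (3 * n) * ∑ a', (if (a, b) ∈ A ∧ (a', b) ∈ A then
        |(g a b - p a) - (g a' b - p a')| else 0) := by
    intro a b
    by_cases hab : (a, b) ∈ A
    · rw [if_pos hab]
      have hc : 0 < ((N b).card : ℝ) := lt_of_lt_of_le (by positivity) (hN b)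
      have e1 : g a b - (p a - q b) =
          (g a b - p a) - (∑ a' ∈ N b, (g a' b - p a')) / (N b).card := by
        simp only [q]; ring
      rw [e1]
      refine (avg_le (N b) hc (fun a' => g a' b - p a') (g a b - p a)).trans ?_
      have e2 : ∑ a', (if (a, b) ∈ A ∧ (a', b) ∈ A then
          |(g a b - p a) - (g a' b - p a')| else 0) =
          ∑ a' ∈ N b, |(g a b - p a) - (g a' b - p a')| := by
        simp only [N, Finset.sum_filter, hab, true_and]
      rw [e2]
      apply mul_le_mul_of_nonneg_right _ (Finset.sum_nonneg fun _ _ => abs_nonneg _)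
      rw [div_le_div_iff₀ hc (by positivity)]
      have := hN b
      linarith
    · rw [if_neg hab]
      apply mul_nonneg (by positivity)
      refine Finset.sum_nonneg fun a' _ => ?_
      split_ifs
      · exact abs_nonneg _
      · exact le_refl _
  calc ∑ a, ∑ b, (if (a, b) ∈ A then |g a b - (p a - q b)| else 0)
      ≤ ∑ a, ∑ b, 4 / (3 * n) * ∑ a', (if (a, b) ∈ A ∧ (a', b) ∈ A then
        |(g a b - p a) - (g a' b - p a')| else 0) :=
        Finset.sum_le_sum fun a _ => Finset.sum_le_sum fun b _ => key a b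
    _ = 4 / (3 * n) * ∑ a, ∑ a', ∑ b, (if (a, b) ∈ A ∧ (a', b) ∈ A then
        |(g a b - p a) - (g a' b - p a')| else 0) := by
        rw [Finset.mul_sum]
        refine Finset.sum_congr rfl fun a _ => ?_
        rw [Finset.sum_comm, Finset.mul_sum]
    _ ≤ 4 / (3 * n) * (26 / n * Q4 A g) :=
        mul_le_mul_of_nonneg_left hp (by positivity)
    _ ≤ 35 / (n : ℝ) ^ 2 * Q4 A g := by
        have hQ := Q4_nonneg A g
        have e3 : 4 / (3 * (n : ℝ)) * (26 / n * Q4 A g) = (104 / 3) / (n : ℝ) ^ 2 * Q4 A g := by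
          field_simp
          ring
        rw [e3]
        apply mul_le_mul_of_nonneg_right _ hQ
        apply div_le_div_of_nonneg_right (by norm_num) (by positivity)

end Pool.Agent.Helper26.TP
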